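import Pool.Agent.V5helper50.BQ.Ell
import Pool.Agent.V5helper41.BA.Mul

/-!
# The `L`-functions of the products of the twists of `X_0(49)` with the varieties of Artin–Tate type
-/

set_option autoImplicit false
set_option linter.unusedSectionVars false

namespace Pool.Agent.V5helper50.BQ

open NumberField IsDedekindDomain WeierstrassCurve
open scoped symmDiff
open Pool.Agent.V5helper50.MQ
open Pool.Agent.V5helper41.BA (ev card_ev trace_ev norm_ev tns tns_prod Aw Aw_odd Aw_count Aw_weight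
  Aw_card Aw_top)
open Pool.Agent.Y698 Pool.Agent.Y698.SG
open Pool.Agent.Results.MP_4a9ea6_nt.TwoPartTwistsX49 (twist mat)

section place
variable {F : Type} [Field F] [NumberField F]

/-- (from `Pool.Agent.N842.EB.Fin`) -/
lemma card_under {v : HeightOneSpectrum (𝓞 F)} {p : ℕ} (hp : p.Prime)
    (hv : (p : 𝓞 F) ∈ v.asIdeal) : Nat.card (ℤ ⧸ v.asIdeal.under ℤ) = p := by
  have h1 : v.asIdeal.under ℤ = Ideal.span {(p : ℤ)} := by
    symm
    have hprime : (Ideal.span {(p : ℤ)}).IsPrime := by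
      rw [Ideal.span_singleton_prime (by exact_mod_cast hp.ne_zero)]
      exact Nat.prime_iff_prime_int.1 hp
    have hmax : (Ideal.span {(p : ℤ)}).IsMaximal :=
      Ideal.IsPrime.isMaximal hprime (by
        rw [Ne, Ideal.span_singleton_eq_bot]
        exact_mod_cast hp.ne_zero)
    refine hmax.eq_of_le ?_ ?_
    · have h1 : (v.asIdeal.under ℤ).IsPrime := inferInstance
      exact h1.ne_top
    · rw [Ideal.span_le, Set.singleton_subset_iff]
      show algebraMap ℤ (𝓞 F) (p : ℤ) ∈ v.asIdeal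
      simpa using hv
  rw [h1]
  have h2 := Nat.card_congr (Int.quotientSpanNatEquivZMod p).toEquiv
  rw [h2, Nat.card_zmod]

/-- (from `Pool.Agent.N842.EB.Fin`) -/
lemma exists_place {p : ℕ} (hp : p.Prime) : ∃ v : HeightOneSpectrum (𝓞 F), (p : 𝓞 F) ∈ v.asIdeal := by
  have hu : ¬ IsUnit (p : 𝓞 F) := by
    intro h
    have h1 : _root_.IsIntegral ℤ ((p : ℚ)⁻¹) := by
      have h2 : _root_.IsIntegral ℤ (algebraMap ℚ F ((p : ℚ)⁻¹)) := by
        obtain ⟨u, hu⟩ := h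
        have h3 : algebraMap ℚ F ((p : ℚ)⁻¹) = ((u⁻¹ : (𝓞 F)ˣ) : 𝓞 F) := by
          rw [map_inv₀, map_natCast]
          have h4 : ((u : 𝓞 F) : F) * (((u⁻¹ : (𝓞 F)ˣ) : 𝓞 F) : F) = 1 := by
            rw [← map_mul, Units.mul_inv, map_one]
          have h5 : (((p : ℕ) : 𝓞 F) : F) = (p : F) := by simp
          rw [hu, h5] at h4
          exact inv_eq_of_mul_eq_one_right h4
        rw [h3]
        exact RingOfIntegers.isIntegral_coe _
      exact (isIntegral_algebraMap_iff (algebraMap ℚ F).injective).1 h2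
    obtain ⟨n, hn⟩ := IsIntegrallyClosed.isIntegral_iff.1 h1
    have h3 : (n : ℚ) * p = 1 := by
      have h4 : ((n : ℤ) : ℚ) = (p : ℚ)⁻¹ := hn
      rw [h4]
      exact inv_mul_cancel₀ (by exact_mod_cast hp.ne_zero)
    have h4 : n * (p : ℤ) = 1 := by exact_mod_cast h3
    have h5 : (p : ℤ) ∣ 1 := ⟨n, by rw [mul_comm]; exact h4.symm⟩
    have h6 : p ∣ 1 := by exact_mod_cast h5
    exact hp.one_lt.ne' (Nat.dvd_one.1 h6)
  obtain ⟨M, hM, hpM⟩ := exists_max_ideal_of_mem_nonunits hu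
  refine ⟨⟨M, hM.isPrime, ?_⟩, hpM⟩
  rintro rfl
  rw [Ideal.mem_bot] at hpM
  exact hp.ne_zero (by exact_mod_cast hpM)

lemma frb_pow {p : ℕ} (hp : p.Prime) {v : HeightOneSpectrum (𝓞 F)} (hv : (p : 𝓞 F) ∈ v.asIdeal)
    {σ : F ≃ₐ[ℚ] F} (hσ : IsArithFrobAt ℤ σ v.asIdeal) (x : 𝓞 F) :
    σ • x - x ^ p ∈ v.asIdeal := by
  have h3 := hσ x
  rw [card_under hp hv] at h3
  exact h3

/-- the data at the primes -/
theorem exists_frb (hG : IsGalois ℚ F) {p : ℕ} (hp : p.Prime) :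
    ∃ (v : HeightOneSpectrum (𝓞 F)) (σ : F ≃ₐ[ℚ] F), (p : 𝓞 F) ∈ v.asIdeal ∧
      IsArithFrobAt ℤ σ v.asIdeal ∧ ∀ x : 𝓞 F, σ • x - x ^ p ∈ v.asIdeal := by
  obtain ⟨v, hv⟩ := exists_place (F := F) hp
  have hfin : Finite (𝓞 F ⧸ v.asIdeal) := Ideal.finiteQuotientOfFreeOfNeBot v.asIdeal v.ne_bot
  obtain ⟨σ, hσ⟩ := IsArithFrobAt.exists_of_isInvariant ℤ (F ≃ₐ[ℚ] F) v.asIdeal
  exact ⟨v, σ, hv, hσ, frb_pow hp hv hσ⟩

end place

section
variable {S : Finset ℕ} (hS : ∀ m ∈ S, Cl m) (F : IntermediateField ℚ ℂ) (hF : F = mqn S)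
include hS hF

/-- the multiplicities -/
theorem mults [NumberField F] {b : ℕ} (ρ : (F ≃ₐ[ℚ] F) →* Matrix (Fin b) (Fin b) ℂ) :
    ∃ m : Finset ℕ → ℕ, (∑ T ∈ XF F (S0 S), (m T : ℂ) = b) ∧
      ∀ g, ∑ T ∈ XF F (S0 S), (m T : ℂ) * chi F T g = (ρ g).trace := by
  classical
  have := isGal hS F hF
  let _ : Fintype (F ≃ₐ[ℚ] F) := Fintype.ofFinite _
  refine exists_mult (XF F (S0 S)) (chi F) (fun T hT g h => ?_) (fun T hT g => ?_)
    (fun g hg => orth hS F hF hg) ?_ ρ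
  · obtain ⟨h1, h2⟩ := mem_XF.1 hT
    exact chi_mul ((ps_S0 hS).mono h1) h2 g h
  · obtain ⟨h1, h2⟩ := mem_XF.1 hT
    rcases chi_spec ((ps_S0 hS).mono h1) h2 g with h | h
    · exact Or.inl h.1
    · exact Or.inr h.1
  · rw [card_X_eq hS F hF, Nat.card_eq_fintype_card]

lemma rho_sq {b : ℕ} (ρ : (F ≃ₐ[ℚ] F) →* Matrix (Fin b) (Fin b) ℂ)
    (σ : F ≃ₐ[ℚ] F) : ρ σ * ρ σ = 1 := by
  rw [← map_mul, inv_sq hS F hF σ, map_one]

lemma sig_inv (σ : F ≃ₐ[ℚ] F) : σ⁻¹ = σ := inv_eq_of_mul_eq_one_left (inv_sq hS F hF σ)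

omit hF in
/-- the sign of the twist by a character -/
lemma sg_twn {T : Finset ℕ} (hT : PS T) {D : ℕ} (hD : Cl D) {p : ℕ} (hp : p.Prime)
    (hpT : p ∉ T) : (∏ q ∈ T, qch q (p : ℤ)) * sg D p = sg (twn T D) p := by
  unfold sg
  rw [(cl_twn hT hD).2]
  exact qch_symm hT hp fun _ => hpT

/-- **The local factor.** -/
theorem loc_fac [NumberField F] {D : ℕ} (hD : Cl D) {b : ℕ}
    (ρ : (F ≃ₐ[ℚ] F) →* Matrix (Fin b) (Fin b) ℂ) {m : Finset ℕ → ℕ}
    (hm1 : ∑ T ∈ XF F (S0 S), (m T : ℂ) = b)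
    (hm2 : ∀ g, ∑ T ∈ XF F (S0 S), (m T : ℂ) * chi F T g = (ρ g).trace) {p : ℕ} (hp : p.Prime)
    (hp2 : p ≠ 2) (h7 : p ≠ 7) (hpS : p ∉ S0 S)
    {v : HeightOneSpectrum (𝓞 F)} (hv : (p : 𝓞 F) ∈ v.asIdeal)
    {σ : F ≃ₐ[ℚ] F} (hσ : ∀ x : 𝓞 F, σ • x - x ^ p ∈ v.asIdeal) {γ γ' : ℂ}
    (h1 : γ + γ' = sg D p * bc p) (h2 : γ * γ' = p) (hs1 : sg D p ^ 2 = 1) (k : ℕ) (s : ℂ) :
    ((tns p {γ, γ'} (ev (ρ σ⁻¹)) k).map fun α => (1 - α * (p : ℂ) ^ (-s))⁻¹).prod =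
      ∏ T ∈ XF F (S0 S), EF (sg (twn T D) p) (s - k) p ^ m T := by
  have h0 : (p : ℂ) ≠ 0 := by exact_mod_cast hp.ne_zero
  have hx : (p : ℂ) ^ k * (p : ℂ) ^ (-s) = (p : ℂ) ^ (-(s - k)) := by
    rw [show -(s - (k : ℂ)) = (k : ℂ) + -s by ring, Complex.cpow_add _ _ h0, Complex.cpow_natCast]
  rw [tns_prod, hx, sig_inv hS F hF]
  set y : ℂ := (p : ℂ) ^ (-(s - k)) with hy
  have e1 : (({γ, γ'} : Multiset ℂ).map fun γ => ((ev (ρ σ)).map fun β =>
      (1 - γ * β * y)⁻¹).prod).prod = ((ev (ρ σ)).map fun β =>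
      (1 - γ * β * y)⁻¹ * (1 - γ' * β * y)⁻¹).prod := by
    rw [Multiset.prod_map_mul]
    simp
  rw [e1, prod_ev (rho_sq hS F hF ρ σ) (fun β => (1 - γ * β * y)⁻¹ * (1 - γ' * β * y)⁻¹)
    (XF F (S0 S)) (fun T => chi F T σ) ?_ m ?_ (hm2 σ)]
  · refine Finset.prod_congr rfl fun T hT => ?_
    obtain ⟨t1, t2⟩ := mem_XF.1 hT
    have hTp := (ps_S0 hS).mono t1
    have hpT : p ∉ T := fun h => hpS (t1 h)
    congr 1
    rw [← mul_inv]
    unfold EF
    congr 1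
    have hc := chi_frob hTp t2 hp hp2 hpT hv hσ
    have hs := sg_twn hS hTp hD hp hpT
    rw [← hs, ← hc]
    set c := chi F T σ with hcdef
    have hc2 : c ^ 2 = 1 := by
      rcases chi_spec hTp t2 σ with h | h <;> rw [hcdef, h.1] <;> norm_num
    have hec : ec p = (p : ℂ) := by unfold ec; rw [if_neg h7]
    rw [hec, ← hy]
    have e2 : (1 - γ * c * y) * (1 - γ' * c * y) = 1 - (γ + γ') * (c * y) + (γ * γ') * (c ^ 2 * y ^ 2) := by
      ring
    rw [e2, h1, h2, mul_pow, mul_pow, hs1, hc2]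
    ring
  · intro T hT
    obtain ⟨t1, t2⟩ := mem_XF.1 hT
    rcases chi_spec ((ps_S0 hS).mono t1) t2 σ with h | h
    · exact Or.inl h.1
    · exact Or.inr h.1
  · rw [hm1, Fintype.card_fin]

/-- **The `L`-function of the product in an odd degree.** -/
theorem main_L [NumberField F] {D : ℕ} (hD : Cl D)
    (hdet : ∀ T ∈ XF F (S0 S), (mat (twn T D)).det ≠ 0) {B : ℕ} (hB : B ≠ 0)
    (hBd : 14 * D * ∏ m ∈ S, m ∣ B) (N : ℕ)
    {b : ℕ → ℕ} (ρ : ∀ k, (F ≃ₐ[ℚ] F) →* Matrix (Fin (b k)) (Fin (b k)) ℂ)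
    {v : Nat.Primes → HeightOneSpectrum (𝓞 F)}
    (hv : ∀ p : Nat.Primes, ((p : ℕ) : 𝓞 F) ∈ (v p).asIdeal)
    {σ : Nat.Primes → F ≃ₐ[ℚ] F}
    (hσ : ∀ (p : Nat.Primes) (x : 𝓞 F), σ p • x - x ^ (p : ℕ) ∈ (v p).asIdeal)
    {γ γ' : Nat.Primes → ℂ}
    (h1 : ∀ p : Nat.Primes, ¬ (p : ℕ) ∣ B → γ p + γ' p = sg D p * bc p)
    (h2 : ∀ p : Nat.Primes, ¬ (p : ℕ) ∣ B → γ p * γ' p = (p : ℕ))
    {i : ℕ} (hi : Odd i) :
    ∃ L : ℂ → ℂ, Differentiable ℂ L ∧ (∀ s : ℂ, (i : ℝ) / 2 + 1 < s.re →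
      HasProd (fun p : Nat.Primes => if (p : ℕ) ∣ B then 1 else
        ((Aw 1 N ((p : ℕ) : ℂ) {γ p, γ' p}
          (fun k => ev (ρ k (σ p)⁻¹)) i).map fun α =>
            (1 - α * ((p : ℕ) : ℂ) ^ (-s))⁻¹).prod) (L s)) ∧ L ((i + 1) / 2) ≠ 0 := by
  classical
  have hg : ∀ T : Finset ℕ, ∃ g : ℂ → ℂ, T ∈ XF F (S0 S) →
      Differentiable ℂ g ∧ g 1 ≠ 0 ∧ ∀ s : ℂ, 3 / 2 < s.re →
      HasProd (fun p : Nat.Primes => if (p : ℕ) ∣ B then 1 else EF (sg (twn T D) p) s p) (g s) := by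
    intro T
    by_cases hT : T ∈ XF F (S0 S)
    · obtain ⟨t1, t2⟩ := mem_XF.1 hT
      obtain ⟨g, hg⟩ := inc_L (cl_twn ((ps_S0 hS).mono t1) hD).1 (hdet T hT) hB
      exact ⟨g, fun _ => hg⟩
    · exact ⟨fun _ => 0, fun h => absurd h hT⟩
  choose g hg using hg
  by_cases hk : ∃ k, k < N + 1 ∧ 1 + 2 * k = i
  · obtain ⟨k, hkN, hki⟩ := hk
    obtain ⟨m, hm1, hm2⟩ := mults hS F hF (ρ k)
    have hsub : Differentiable ℂ (fun s : ℂ => s - (k : ℂ)) := differentiable_id.sub_const _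
    refine ⟨fun s => ∏ T ∈ XF F (S0 S), g T (s - k) ^ m T, ?_, ?_, ?_⟩
    · exact Differentiable.fun_finsetProd fun T hT => ((hg T hT).1.comp hsub).pow _
    · intro s hs
      have hre : 3 / 2 < (s - (k : ℂ)).re := by
        rw [Complex.sub_re, Complex.natCast_re]
        have h1 : (i : ℝ) = 1 + 2 * k := by exact_mod_cast hki.symm
        rw [h1] at hs
        linarith
      have h3 : HasProd (fun p : Nat.Primes => ∏ T ∈ XF F (S0 S),
          (if (p : ℕ) ∣ B then 1 else EF (sg (twn T D) p) (s - k) p) ^ m T)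
          (∏ T ∈ XF F (S0 S), g T (s - k) ^ m T) :=
        hasProd_prod fun T hT => ((hg T hT).2.2 _ hre).pow _
      refine h3.congr_fun fun p => ?_
      by_cases hp : (p : ℕ) ∣ B
      · rw [if_pos hp]
        simp [hp]
      · rw [if_neg hp]
        simp only [if_neg hp]
        have h4 : Aw 1 N ((p : ℕ) : ℂ) {γ p, γ' p} (fun k => ev (ρ k (σ p)⁻¹)) i =
            tns ((p : ℕ) : ℂ) {γ p, γ' p} (ev (ρ k (σ p)⁻¹)) k := by
          rw [Aw_odd _ _ _ hi, Finset.sum_eq_single k]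
          · rw [if_pos hki]
          · intro k' _ hk'
            rw [if_neg (by omega)]
          · intro h
            exact absurd (Finset.mem_range.2 hkN) h
        rw [h4]
        have hp2 : (p : ℕ) ≠ 2 := by
          intro h
          apply hp
          rw [h]
          exact dvd_trans (Dvd.dvd.mul_right (Dvd.dvd.mul_right (by norm_num) D) _) hBd
        have hp7 : (p : ℕ) ≠ 7 := by
          intro h
          apply hp
          rw [h]
          exact dvd_trans (Dvd.dvd.mul_right (Dvd.dvd.mul_right (by norm_num) D) _) hBd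
        have hpD : ¬ (p : ℕ) ∣ D := fun h => hp
          (dvd_trans (Dvd.dvd.mul_right (Dvd.dvd.mul_left h _) _) hBd)
        have hpS : (p : ℕ) ∉ S0 S := by
          intro h
          obtain ⟨m, hm, h⟩ := Finset.mem_biUnion.1 h
          apply hp
          refine dvd_trans ?_ hBd
          exact Dvd.dvd.mul_left ((Nat.dvd_of_mem_primeFactors h).trans
            (Finset.dvd_prod_of_mem (fun l : ℕ => l) hm)) _
        exact loc_fac hS F hF hD (ρ k) hm1 hm2 p.2 hp2 hp7 hpS (hv p) (hσ p) (h1 p hp) (h2 p hp)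
          (sg_sq hD p.2 hpD) k s
    · refine Finset.prod_ne_zero_iff.2 fun T hT => pow_ne_zero _ ?_
      have h3 : ((i : ℂ) + 1) / 2 - k = 1 := by
        rw [← hki]
        push_cast
        ring
      rw [h3]
      exact (hg T hT).2.1
  · refine ⟨fun _ => 1, differentiable_const _, fun s _ => ?_, one_ne_zero⟩
    have h3 : HasProd (fun _ : Nat.Primes => (1 : ℂ)) 1 := hasProd_one
    refine h3.congr_fun fun p => ?_
    by_cases hp : (p : ℕ) ∣ B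
    · rw [if_pos hp]
    · rw [if_neg hp, Aw_odd _ _ _ hi, Finset.sum_eq_zero]
      · simp
      · intro k hk'
        rw [if_neg]
        intro h
        exact hk ⟨k, Finset.mem_range.1 hk', h⟩

/-- the eigenvalues of the matrices have the absolute value one -/
lemma norm_rho {b : ℕ} (ρ : (F ≃ₐ[ℚ] F) →* Matrix (Fin b) (Fin b) ℂ) (σ : F ≃ₐ[ℚ] F) {x : ℂ}
    (hx : x ∈ ev (ρ σ)) : ‖x‖ = 1 := by
  rcases ev_sq (rho_sq hS F hF ρ σ) hx with rfl | rfl <;> simp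

end

end Pool.Agent.V5helper50.BQ
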