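import Pool.Agent.V5helper50.BQ.Quad
import Pool.Agent.V5helper50.BQ.Main

/-!
# The diagonal quadrics are of Artin–Tate type
-/

set_option autoImplicit false
set_option linter.unusedSectionVars false

open scoped LinearAlgebra.Projectivization
open NumberField IsDedekindDomain

namespace Pool.Agent.V5helper50.BQ

/-- the points of the diagonal quadric in the projective space -/
def PQ {m : ℕ} (a : Fin m → ℤ) (L : Type) [Field L] : Set (ℙ L (Fin m → L)) :=
  {P | ∑ i, (a i : L) * P.rep i ^ 2 = 0}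

lemma sq_smul {m : ℕ} (a : Fin m → ℤ) {L : Type} [Field L] (u : L) (x : Fin m → L) :
    ∑ i, (a i : L) * (u • x) i ^ 2 = u ^ 2 * ∑ i, (a i : L) * x i ^ 2 := by
  rw [Finset.mul_sum]
  refine Finset.sum_congr rfl fun i _ => ?_
  rw [Pi.smul_apply, smul_eq_mul]
  ring

/-- the nonzero solutions are the multiples of the representatives of the points -/
theorem card_PQ {m : ℕ} (a : Fin m → ℤ) (L : Type) [Field L] [Finite L] :
    Nat.card {x : Fin m → L // x ≠ 0 ∧ ∑ i, (a i : L) * x i ^ 2 = 0} =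
      (PQ a L).ncard * (Nat.card L - 1) := by
  classical
  have : Fintype L := Fintype.ofFinite L
  have hu : Nat.card Lˣ = Nat.card L - 1 := by
    rw [Nat.card_eq_fintype_card, Nat.card_eq_fintype_card, Fintype.card_units]
  rw [← hu, ← Nat.card_coe_set_eq, ← Nat.card_prod]
  symm
  refine Nat.card_congr (Equiv.ofBijective (fun q : PQ a L × Lˣ =>
    (⟨(q.2 : L) • q.1.1.rep, smul_ne_zero q.2.ne_zero q.1.1.rep_nonzero, by
      rw [sq_smul]
      have h := q.1.2
      unfold PQ at h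
      rw [Set.mem_ofPred_eq] at h
      rw [h, mul_zero]⟩ : {x : Fin m → L // x ≠ 0 ∧ ∑ i, (a i : L) * x i ^ 2 = 0})) ⟨?_, ?_⟩)
  · rintro ⟨⟨P, hP⟩, u⟩ ⟨⟨Q, hQ⟩, v⟩ h
    have h1 : (u : L) • P.rep = (v : L) • Q.rep := congrArg Subtype.val h
    have h2 : P = Q := by
      rw [← P.mk_rep, ← Q.mk_rep, Projectivization.mk_eq_mk_iff]
      refine ⟨u⁻¹ * v, ?_⟩
      rw [mul_smul]
      have h3 : v • Q.rep = u • P.rep := h1.symm
      rw [h3, inv_smul_smul]
    subst h2
    have h3 : u = v := by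
      apply Units.ext
      exact smul_left_injective L P.rep_nonzero h1
    subst h3
    rfl
  · rintro ⟨x, hx, hx'⟩
    obtain ⟨u, hu⟩ := Projectivization.exists_smul_eq_mk_rep L x hx
    have h1 : (Projectivization.mk L x hx).rep = (u : L) • x := hu.symm
    refine ⟨⟨⟨Projectivization.mk L x hx, ?_⟩, u⁻¹⟩, ?_⟩
    · unfold PQ
      rw [Set.mem_ofPred_eq, h1, sq_smul, hx', mul_zero]
    · apply Subtype.ext
      show ((u⁻¹ : Lˣ) : L) • (Projectivization.mk L x hx).rep = x
      rw [h1]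
      exact inv_smul_smul u x

/-- the origin -/
lemma card_all {m : ℕ} (a : Fin m → ℤ) (L : Type) [Field L] [Finite L] :
    Nat.card {x : Fin m → L // ∑ i, (a i : L) * x i ^ 2 = 0} =
      (PQ a L).ncard * (Nat.card L - 1) + 1 := by
  classical
  rw [← card_PQ a L]
  have e : {x : Fin m → L // ∑ i, (a i : L) * x i ^ 2 = 0} ≃
      Option {x : Fin m → L // x ≠ 0 ∧ ∑ i, (a i : L) * x i ^ 2 = 0} :=
    { toFun := fun x => if h : x.1 = 0 then none else some ⟨x.1, h, x.2⟩
      invFun := fun y => match y with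
        | none => ⟨0, by simp⟩
        | some y => ⟨y.1, y.2.2⟩
      left_inv := by
        rintro ⟨x, hx⟩
        by_cases h : x = 0
        · subst h
          simp
        · simp [h]
      right_inv := by
        rintro (_ | ⟨y, hy, hy'⟩)
        · simp
        · simp [hy] }
  rw [Nat.card_congr e, Finite.card_option]

/-- the quadratic character of an extension at an integer -/
lemma qc_int {p : ℕ} [hp : Fact p.Prime] (hp2 : p ≠ 2) {d : ℤ} (hd : ¬ (p : ℤ) ∣ d) (L : Type)
    [Field L] [Fintype L] [DecidableEq L] {n : ℕ} (hn : n ≠ 0) (hL : Fintype.card L = p ^ n) :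
    ringChar L ≠ 2 ∧ qc L ((d : ℤ) : L) = ((legendreSym p d : ℤ) : ℂ) ^ n := by
  have hchar : CharP L p := by
    rw [CharP.charP_iff_prime_eq_zero hp.out]
    have h1 : ((Fintype.card L : ℕ) : L) = 0 := Nat.cast_card_eq_zero L
    rw [hL] at h1
    push_cast at h1
    exact (pow_eq_zero_iff hn).1 h1
  have hrc : ringChar L ≠ 2 := by
    rw [ringChar.eq L p]
    exact hp2
  refine ⟨hrc, ?_⟩
  let _ : Algebra (ZMod p) L := ZMod.algebra L p
  have hodd : p % 2 = 1 := by
    rcases hp.out.eq_two_or_odd with h1 | h1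
    · exact absurd h1 hp2
    · exact h1
  have hE := legendreSym.eq_pow p d
  have hd0 : ((d : ℤ) : ZMod p) ≠ 0 := by
    intro h1
    exact hd ((ZMod.intCast_zmod_eq_zero_iff_dvd _ _).1 h1)
  have h1 : ((legendreSym p d : ℤ) : L) = ((d : ℤ) : L) ^ (p / 2) := by
    have := congrArg (algebraMap (ZMod p) L) hE
    rw [map_intCast, map_pow, map_intCast] at this
    exact this
  have h2 := quadraticChar_eq_pow_of_char_ne_two' hrc ((d : ℤ) : L)
  have hsum : Fintype.card L / 2 = (p / 2) * ∑ j ∈ Finset.range n, p ^ j := by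
    rw [hL]
    have h3 := Nat.geomSum_eq (m := p) hp.out.two_le n
    have h4 : (p - 1) * ∑ j ∈ Finset.range n, p ^ j = p ^ n - 1 := by
      have h5 := Nat.geomSum_eq (m := p) hp.out.two_le n
      have h6 : p - 1 ∣ p ^ n - 1 := by
        simpa using Nat.sub_dvd_pow_sub_pow p 1 n
      rw [h5]
      exact Nat.mul_div_cancel' h6
    have h5 : p - 1 = 2 * (p / 2) := by omega
    rw [h5] at h4
    have h6 : 1 ≤ p ^ n := Nat.one_le_pow _ _ hp.out.pos
    have h7 : p ^ n = 2 * ((p / 2) * ∑ j ∈ Finset.range n, p ^ j) + 1 := by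
      rw [← mul_assoc, h4]
      omega
    omega
  have hpar : ∀ ε : L, ε * ε = 1 → ε ^ (∑ j ∈ Finset.range n, p ^ j) = ε ^ n := by
    intro ε hε
    have key : ∀ j, ε ^ (p ^ j) = ε := by
      intro j
      have h8 : (p ^ j) % 2 = 1 := by
        simp [Nat.pow_mod, hodd]
      have h9 : p ^ j = 2 * (p ^ j / 2) + 1 := by omega
      rw [h9, pow_succ, pow_mul, sq, hε, one_pow, one_mul]
    rw [← Finset.prod_pow_eq_pow_sum, Finset.prod_congr rfl fun j _ => key j, Finset.prod_const,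
      Finset.card_range]
  have hl0 : legendreSym p d = 1 ∨ legendreSym p d = -1 :=
    legendreSym.eq_one_or_neg_one p hd0
  have h3 : ((quadraticChar L ((d : ℤ) : L) : ℤ) : L) = ((legendreSym p d ^ n : ℤ) : L) := by
    rw [h2, hsum, pow_mul, ← h1, hpar]
    · push_cast
      rfl
    · rcases hl0 with h | h <;> rw [h] <;> push_cast <;> ring
  have h20 : (2 : L) ≠ 0 := Ring.two_ne_zero hrc
  have hdL : ((d : ℤ) : L) ≠ 0 := by
    rw [Ne, CharP.intCast_eq_zero_iff L p]
    exact hd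
  have h4 : quadraticChar L ((d : ℤ) : L) = legendreSym p d ^ n := by
    have h5 : legendreSym p d ^ n = 1 ∨ legendreSym p d ^ n = -1 := by
      rcases hl0 with h | h
      · left; rw [h, one_pow]
      · rw [h]
        exact neg_one_pow_eq_or ℤ n
    rcases quadraticChar_dichotomy hdL with h | h <;> rcases h5 with h6 | h6 <;>
      rw [h, h6] at h3 ⊢ <;> exfalso <;> push_cast at h3 <;> apply h20
    · linear_combination h3
    · linear_combination -h3
  rw [qc_apply, h4]
  push_cast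
  rfl

section chr
variable {F : Type} [Field F] [NumberField F]

open Classical in
/-- the character of a square root of an integer -/
noncomputable def chz (z : F) (hz : z ≠ 0) (d : ℤ) (hd : z ^ 2 = (d : F)) :
    (F ≃ₐ[ℚ] F) →* ℂ where
  toFun σ := if σ z = z then 1 else -1
  map_one' := if_pos rfl
  map_mul' σ τ := by
    have hor : ∀ σ : F ≃ₐ[ℚ] F, σ z = z ∨ σ z = -z := by
      intro σ
      apply sq_eq_sq_iff_eq_or_eq_neg.1
      rw [← map_pow, hd, map_intCast]
    have hne : ¬ -z = z := by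
      intro h1
      apply hz
      have h2 : (2 : F) * z = 0 := by linear_combination -h1
      exact (mul_eq_zero.1 h2).resolve_left two_ne_zero
    have hne' : ¬ z = -z := fun h => hne h.symm
    have e : (σ * τ) z = σ (τ z) := rfl
    rw [e]
    rcases hor σ with h1 | h1 <;> rcases hor τ with h2 | h2 <;> rw [h2] <;>
      try rw [map_neg]
    all_goals rw [h1]
    all_goals simp [hne, neg_neg]

lemma chz_spec (z : F) (hz : z ≠ 0) (d : ℤ) (hd : z ^ 2 = (d : F)) (σ : F ≃ₐ[ℚ] F) :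
    (chz z hz d hd σ = 1 ∧ σ z = z) ∨ (chz z hz d hd σ = -1 ∧ σ z = -z) := by
  have hor : σ z = z ∨ σ z = -z := by
    apply sq_eq_sq_iff_eq_or_eq_neg.1
    rw [← map_pow, hd, map_intCast]
  have hne : ¬ -z = z := by
    intro h1
    apply hz
    have h2 : (2 : F) * z = 0 := by linear_combination -h1
    exact (mul_eq_zero.1 h2).resolve_left two_ne_zero
  rcases hor with h | h
  · exact Or.inl ⟨if_pos h, h⟩
  · refine Or.inr ⟨if_neg ?_, h⟩
    rw [h]
    exact hne

lemma chz_inv (z : F) (hz : z ≠ 0) (d : ℤ) (hd : z ^ 2 = (d : F)) (σ : F ≃ₐ[ℚ] F) :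
    chz z hz d hd σ⁻¹ = chz z hz d hd σ := by
  have h1 : chz z hz d hd σ⁻¹ * chz z hz d hd σ = 1 := by
    rw [← map_mul, inv_mul_cancel, map_one]
  rcases chz_spec z hz d hd σ with h | h
  · rw [h.1] at h1 ⊢
    rwa [mul_one] at h1
  · rw [h.1] at h1 ⊢
    linear_combination -h1

/-- the value at the Frobenius automorphism -/
theorem chz_frob (z : F) (hz : z ≠ 0) (d : ℤ) (hd : z ^ 2 = (d : F)) {p : ℕ} [hp : Fact p.Prime]
    (hp2 : p ≠ 2) (hpd : ¬ (p : ℤ) ∣ d) {v : HeightOneSpectrum (𝓞 F)} (hv : (p : 𝓞 F) ∈ v.asIdeal)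
    {σ : F ≃ₐ[ℚ] F} (hσ : ∀ x : 𝓞 F, σ • x - x ^ p ∈ v.asIdeal) :
    chz z hz d hd σ = ((legendreSym p d : ℤ) : ℂ) := by
  have hint : IsIntegral ℤ z := by
    refine IsIntegral.of_pow two_pos ?_
    rw [hd]
    exact isIntegral_intCast _
  have hinj := FaithfulSMul.algebraMap_injective (𝓞 F) F
  obtain ⟨y, hy⟩ : ∃ y : 𝓞 F, algebraMap (𝓞 F) F y = z := ⟨⟨z, hint⟩, rfl⟩
  have hy2 : y ^ 2 = ((d : ℤ) : 𝓞 F) := by
    apply hinj
    rw [map_pow, hy, hd, map_intCast]
  have hyv : y ∉ v.asIdeal := by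
    intro h1
    have h2 : y ^ 2 ∈ v.asIdeal := Ideal.pow_mem_of_mem _ h1 2 two_pos
    rw [hy2] at h2
    exact hpd (int_mem hp.out hv h2)
  have hodd : p % 2 = 1 := by
    rcases hp.out.eq_two_or_odd with h1 | h1
    · exact absurd h1 hp2
    · exact h1
  have hpow : y ^ p = y * ((d : ℤ) : 𝓞 F) ^ (p / 2) := by
    rw [← hy2, ← pow_mul, ← pow_succ']
    congr 1
    omega
  have hE := legendreSym.eq_pow p (d : ℤ)
  have hl0 : legendreSym p (d : ℤ) = 1 ∨ legendreSym p (d : ℤ) = -1 := by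
    refine legendreSym.eq_one_or_neg_one p ?_
    intro h1
    rw [ZMod.intCast_zmod_eq_zero_iff_dvd] at h1
    exact hpd h1
  have hcases : ∀ ε : ℤ, (ε = 1 ∨ ε = -1) → σ z = (ε : F) * z → legendreSym p (d : ℤ) = ε := by
    intro ε hε hσz
    have h1 := hσ y
    have h2 : σ • y = (ε : 𝓞 F) * y := by
      apply hinj
      rw [map_mul, map_intCast, hy, ← hσz, ← hy]
      rfl
    rw [h2, hpow] at h1
    have h3 : y * (((ε - (d : ℤ) ^ (p / 2) : ℤ)) : 𝓞 F) ∈ v.asIdeal := by
      have e : y * (((ε - (d : ℤ) ^ (p / 2) : ℤ)) : 𝓞 F) =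
          (ε : 𝓞 F) * y - y * ((d : ℤ) : 𝓞 F) ^ (p / 2) := by
        push_cast
        ring
      rw [e]
      exact h1
    have h4 := (v.isPrime.mem_or_mem h3).resolve_left hyv
    have h5 := int_mem hp.out hv h4
    have h6 : ((ε - (d : ℤ) ^ (p / 2) : ℤ) : ZMod p) = 0 :=
      (ZMod.intCast_zmod_eq_zero_iff_dvd _ _).2 h5
    push_cast at h6
    have h7 : ((legendreSym p (d : ℤ) : ℤ) : ZMod p) = ((ε : ℤ) : ZMod p) := by
      rw [hE]
      linear_combination -h6
    have hp3 : (2 : ZMod p) ≠ 0 := by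
      intro h0
      have : ((2 : ℕ) : ZMod p) = 0 := by exact_mod_cast h0
      rw [ZMod.natCast_eq_zero_iff] at this
      exact hp2 ((Nat.prime_dvd_prime_iff_eq hp.out Nat.prime_two).1 this)
    rcases hl0 with h8 | h8 <;> rcases hε with h9 | h9 <;> rw [h8, h9] at h7 ⊢ <;> exfalso <;>
      push_cast at h7 <;> apply hp3
    · linear_combination h7
    · linear_combination -h7
  rcases chz_spec z hz d hd σ with ⟨a, b⟩ | ⟨a, b⟩
  · rw [a, hcases 1 (Or.inl rfl) (by rw [b]; push_cast; ring)]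
    norm_num
  · rw [a, hcases (-1) (Or.inr rfl) (by rw [b]; push_cast; ring)]
    norm_num

/-- the diagonal representation -/
noncomputable def dg (χ : (F ≃ₐ[ℚ] F) →* ℂ) (b : ℕ) : (F ≃ₐ[ℚ] F) →* Matrix (Fin b) (Fin b) ℂ where
  toFun σ := Matrix.diagonal fun j => if (j : ℕ) = 0 then 1 else χ σ
  map_one' := by
    rw [← Matrix.diagonal_one]
    congr 1
    funext j
    simp
  map_mul' σ τ := by
    rw [Matrix.diagonal_mul_diagonal]
    congr 1
    funext j
    split_ifs
    · rw [mul_one]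
    · rw [map_mul]

lemma dg_trace (χ : (F ≃ₐ[ℚ] F) →* ℂ) (b : ℕ) (σ : F ≃ₐ[ℚ] F) (n : ℕ) :
    (dg χ b σ ^ n).trace = ∑ j : Fin b, (if (j : ℕ) = 0 then 1 else χ σ) ^ n := by
  have : dg χ b σ = Matrix.diagonal fun j : Fin b => if (j : ℕ) = 0 then 1 else χ σ := rfl
  rw [this, Matrix.diagonal_pow, Matrix.trace_diagonal]
  rfl

/-- **the quadrics are of Artin–Tate type** -/
theorem split_quad {N : ℕ} (a : Fin (N + 1) → ℤ) (ha : ∀ i, a i ≠ 0)
    (hd : ∀ c, N + 1 = 2 * (c + 1) → ∃ z : F, z ^ 2 = (((-1) ^ (c + 1) * ∏ i, a i : ℤ) : F)) :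
    ∃ (b : ℕ → ℕ) (ρ : ∀ k, (F ≃ₐ[ℚ] F) →* Matrix (Fin (b k)) (Fin (b k)) ℂ),
      ∀ (p : ℕ) (w : HeightOneSpectrum (𝓞 F)) (σ : F ≃ₐ[ℚ] F), p.Prime →
        ¬ p ∣ 2 * ∏ i, (a i).natAbs →
        (p : 𝓞 F) ∈ w.asIdeal → IsArithFrobAt ℤ σ w.asIdeal →
        ∀ (L : Type) [Field L] [Finite L] (n : ℕ), Nat.card L = p ^ n →
          ((PQ a L).ncard : ℂ) =
            ∑ k ∈ Finset.range (N + 1), (ρ k σ⁻¹ ^ n).trace * ((p : ℂ) ^ n) ^ k := by
  classical
  have hprod0 : ∏ i, a i ≠ 0 := Finset.prod_ne_zero_iff.2 fun i _ => ha i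
  -- the common part
  have hgen : ∀ (p : ℕ) (hp : p.Prime), ¬ p ∣ 2 * ∏ i, (a i).natAbs → ∀ (L : Type) [Field L]
      [Finite L] (n : ℕ), Nat.card L = p ^ n → n ≠ 0 ∧ p ≠ 2 ∧ (∀ i, ¬ (p : ℤ) ∣ a i) ∧
      ((p : ℂ) ^ n - 1 ≠ 0) := by
    intro p hp hpB L _ _ n hL
    have hn : n ≠ 0 := by
      rintro rfl
      rw [pow_zero] at hL
      have := Finite.one_lt_card (α := L)
      omega
    refine ⟨hn, ?_, fun i h => ?_, ?_⟩
    · rintro rfl
      exact hpB (dvd_mul_right _ _)
    · apply hpB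
      exact Dvd.dvd.mul_left ((Int.natCast_dvd.1 h).trans
        (Finset.dvd_prod_of_mem (fun i => (a i).natAbs) (Finset.mem_univ i))) _
    · rw [sub_ne_zero]
      intro h
      have h2 : p ^ n = 1 := by exact_mod_cast h
      exact hn ((Nat.pow_eq_one.1 h2).resolve_left hp.one_lt.ne')
  have hcnt : ∀ (L : Type) [Field L] [Finite L], (Nat.card {x : Fin (N + 1) → L //
      ∑ i, (a i : L) * x i ^ 2 = 0} : ℂ) = ((PQ a L).ncard : ℂ) * ((Nat.card L : ℂ) - 1) + 1 := by
    intro L _ _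
    rw [card_all a L]
    have := Finite.one_lt_card (α := L)
    push_cast [Nat.cast_sub this.le]
    ring
  by_cases hc : ∃ c, N + 1 = 2 * (c + 1)
  · obtain ⟨c, hc⟩ := hc
    obtain ⟨z, hz⟩ := hd c hc
    set d : ℤ := (-1) ^ (c + 1) * ∏ i, a i with hddef
    have hd0 : d ≠ 0 := mul_ne_zero (pow_ne_zero _ (by norm_num)) hprod0
    have hz0 : z ≠ 0 := by
      rintro rfl
      rw [zero_pow two_ne_zero] at hz
      exact hd0 (by exact_mod_cast hz.symm)
    refine ⟨fun k => if k = N then 0 else if k = c then 2 else 1,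
      fun k => dg (chz z hz0 d hz) _, ?_⟩
    intro p w σ hp hpB hw hσ L _ _ n hL
    have : Fact p.Prime := ⟨hp⟩
    obtain ⟨hn, hp2, hpa, hq1⟩ := hgen p hp hpB L n hL
    have hpd : ¬ (p : ℤ) ∣ d := by
      have hpp : Prime (p : ℤ) := Nat.prime_iff_prime_int.1 hp
      intro h
      rcases hpp.dvd_or_dvd h with h | h
      · have := hpp.dvd_of_dvd_pow h
        rw [dvd_neg] at this
        exact hpp.not_isUnit (isUnit_of_dvd_one this)
      · obtain ⟨i, -, hi⟩ := (hpp.dvd_finsetProd_iff _).1 h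
        exact hpa i hi
    let _ : Fintype L := Fintype.ofFinite L
    have hL' : Fintype.card L = p ^ n := by rw [← Nat.card_eq_fintype_card, hL]
    obtain ⟨hrc, hqc⟩ := qc_int hp2 hpd L hn hL'
    have hchar : CharP L p := by
      rw [CharP.charP_iff_prime_eq_zero hp]
      have h1 : ((Fintype.card L : ℕ) : L) = 0 := Nat.cast_card_eq_zero L
      rw [hL'] at h1
      push_cast at h1
      exact (pow_eq_zero_iff hn).1 h1
    have haL : ∀ i, ((a i : ℤ) : L) ≠ 0 := by
      intro i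
      rw [Ne, CharP.intCast_eq_zero_iff L p]
      exact hpa i
    have h1 := (card_quad hrc haL).2 c hc
    have e1 : ((-1) ^ (c + 1) * ∏ i, ((a i : ℤ) : L)) = ((d : ℤ) : L) := by
      rw [hddef]
      push_cast
      rfl
    rw [e1, hqc, hcnt L, hL', hL] at h1
    have h2 := chz_frob z hz0 d hz hp2 hpd hw (frb_pow hp hw hσ)
    rw [← h2] at h1
    set X : ℂ := chz z hz0 d hz σ with hX
    have h3 : ∀ k ∈ Finset.range (N + 1),
        ((dg (chz z hz0 d hz) (if k = N then 0 else if k = c then 2 else 1)) σ⁻¹ ^ n).trace *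
          ((p : ℂ) ^ n) ^ k = (if k = N then 0 else ((p : ℂ) ^ n) ^ k) +
            if k = c then X ^ n * ((p : ℂ) ^ n) ^ k else 0 := by
      intro k _
      rw [dg_trace, chz_inv, ← hX]
      by_cases hkN : k = N
      · have hkc : k ≠ c := by omega
        rw [if_pos hkN, if_neg hkc, if_pos hkN]
        simp
      · by_cases hkc : k = c
        · rw [if_neg hkN, if_pos hkc, if_pos hkc, if_neg hkN, Fin.sum_univ_two]
          simp
          ring
        · rw [if_neg hkN, if_neg hkc, if_neg hkc, if_neg hkN, Fin.sum_univ_one]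
          simp
    rw [Finset.sum_congr rfl h3, Finset.sum_add_distrib, Finset.sum_range_succ,
      Finset.sum_ite_eq' (Finset.range (N + 1)) c, if_pos (Finset.mem_range.2 (by omega)),
      if_pos rfl, add_zero]
    have h4 : ∑ k ∈ Finset.range N, (if k = N then 0 else ((p : ℂ) ^ n) ^ k) =
        ∑ k ∈ Finset.range N, ((p : ℂ) ^ n) ^ k := by
      refine Finset.sum_congr rfl fun k hk => ?_
      rw [if_neg (Finset.mem_range.1 hk).ne]
    rw [h4]
    apply mul_right_cancel₀ hq1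
    have h5 := geom_sum_mul ((p : ℂ) ^ n) N
    have h6 : N = 2 * c + 1 := by omega
    have h7 : ((p : ℂ) ^ n) ^ N = ((p : ℂ) ^ n) ^ (2 * c + 1) := by rw [h6]
    push_cast at h1
    rw [add_mul, h5, h7]
    linear_combination h1
  · refine ⟨fun k => if k = N then 0 else 1, fun k => dg 1 _, ?_⟩
    intro p w σ hp hpB hw hσ L _ _ n hL
    have : Fact p.Prime := ⟨hp⟩
    obtain ⟨hn, hp2, hpa, hq1⟩ := hgen p hp hpB L n hL
    have hodd : Odd (N + 1) := by
      rw [← Nat.not_even_iff_odd]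
      rintro ⟨r, hr⟩
      exact hc ⟨r - 1, by omega⟩
    let _ : Fintype L := Fintype.ofFinite L
    have hL' : Fintype.card L = p ^ n := by rw [← Nat.card_eq_fintype_card, hL]
    have hone : ¬ (p : ℤ) ∣ 1 := fun h =>
      (Nat.prime_iff_prime_int.1 hp).not_isUnit (isUnit_of_dvd_one h)
    obtain ⟨hrc, -⟩ := qc_int hp2 hone L hn hL'
    have hchar : CharP L p := by
      rw [CharP.charP_iff_prime_eq_zero hp]
      have h1 : ((Fintype.card L : ℕ) : L) = 0 := Nat.cast_card_eq_zero L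
      rw [hL'] at h1
      push_cast at h1
      exact (pow_eq_zero_iff hn).1 h1
    have haL : ∀ i, ((a i : ℤ) : L) ≠ 0 := by
      intro i
      rw [Ne, CharP.intCast_eq_zero_iff L p]
      exact hpa i
    have h1 := (card_quad hrc haL).1 hodd
    rw [hcnt L, hL', hL, Nat.add_sub_cancel] at h1
    have h3 : ∀ k ∈ Finset.range (N + 1),
        ((dg (1 : (F ≃ₐ[ℚ] F) →* ℂ) (if k = N then 0 else 1)) σ⁻¹ ^ n).trace *
          ((p : ℂ) ^ n) ^ k = (if k = N then 0 else ((p : ℂ) ^ n) ^ k) := by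
      intro k _
      rw [dg_trace]
      by_cases hkN : k = N
      · rw [if_pos hkN, if_pos hkN]
        simp
      · rw [if_neg hkN, if_neg hkN, Fin.sum_univ_one]
        simp
    rw [Finset.sum_congr rfl h3, Finset.sum_range_succ, if_pos rfl, add_zero]
    have h4 : ∑ k ∈ Finset.range N, (if k = N then 0 else ((p : ℂ) ^ n) ^ k) =
        ∑ k ∈ Finset.range N, ((p : ℂ) ^ n) ^ k := by
      refine Finset.sum_congr rfl fun k hk => ?_
      rw [if_neg (Finset.mem_range.1 hk).ne]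
    rw [h4]
    apply mul_right_cancel₀ hq1
    have h5 := geom_sum_mul ((p : ℂ) ^ n) N
    push_cast at h1
    rw [h5]
    linear_combination h1

end chr

end Pool.Agent.V5helper50.BQ
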