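import Pool.Agent.V5helper41.BA.Lin

/-!
# Representations of a group whose characters are signs
-/

set_option autoImplicit false

open Polynomial

namespace Pool.Agent.V5helper50.BQ

open Finset
open Pool.Agent.V5helper41.BA (ev card_ev trace_ev norm_ev)

section
variable {n : Type} [Fintype n] [DecidableEq n]

/-- the eigenvalues satisfy the equation of an involution -/
lemma ev_sq {A : Matrix n n ℂ} (h : A * A = 1) {β : ℂ} (hβ : β ∈ ev A) : β = 1 ∨ β = -1 := by
  have h1 : A.charpoly.IsRoot β := (mem_roots'.1 hβ).2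
  have hdet : (Matrix.scalar n β - A).det = 0 := by
    rw [← Matrix.eval_charpoly]
    exact h1
  obtain ⟨v, hv0, hv⟩ := Matrix.exists_mulVec_eq_zero_iff.mpr hdet
  have hM : A.mulVec v = β • v := by
    rw [Matrix.sub_mulVec, sub_eq_zero] at hv
    rw [← hv]
    funext j
    simp [Matrix.mulVec, dotProduct, Matrix.scalar_apply, Matrix.diagonal_apply]
  have h2 : (A * A).mulVec v = (β ^ 2) • v := by
    rw [← Matrix.mulVec_mulVec, hM, Matrix.mulVec_smul, hM, smul_smul, pow_two]
  rw [h, Matrix.one_mulVec] at h2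
  have h3 : (β ^ 2 - 1) • v = 0 := by
    rw [sub_smul, one_smul, ← h2, sub_self]
  have h4 : β ^ 2 - 1 = 0 := (smul_eq_zero.1 h3).resolve_right hv0
  have h5 : (β - 1) * (β + 1) = 0 := by linear_combination h4
  rcases mul_eq_zero.1 h5 with h6 | h6
  · exact Or.inl (sub_eq_zero.1 h6)
  · exact Or.inr (eq_neg_of_add_eq_zero_left h6)

/-- the trace of an idempotent matrix is a natural number -/
lemma trace_idem {e : Matrix n n ℂ} (h : e * e = e) : ∃ m : ℕ, e.trace = m := by
  have h1 : ((2 : ℂ) • e - 1) * ((2 : ℂ) • e - 1) = 1 := by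
    have : ((2 : ℂ) • e - 1) * ((2 : ℂ) • e - 1) = (4 : ℂ) • (e * e) - (4 : ℂ) • e + 1 := by
      rw [sub_mul, mul_sub, smul_mul_smul_comm, mul_one, one_mul]
      have e4 : (4 : ℂ) • e = (2 : ℂ) • e + (2 : ℂ) • e := by
        rw [← add_smul]; norm_num
      rw [e4]
      norm_num
      abel
    rw [this, h, sub_self, zero_add]
  have h2 := trace_ev ((2 : ℂ) • e - 1) 1
  simp only [pow_one, Multiset.map_id'] at h2
  rw [Matrix.trace_sub, Matrix.trace_smul, Matrix.trace_one, smul_eq_mul] at h2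
  have h3 := card_ev ((2 : ℂ) • e - 1)
  have key : ∀ s : Multiset ℂ, (∀ β ∈ s, β = 1 ∨ β = -1) →
      s.sum = 2 * (s.count 1 : ℂ) - s.card := by
    intro s
    induction s using Multiset.induction_on with
    | empty => intro _; simp
    | cons a s ih =>
      intro hs
      have h4 := ih fun β hβ => hs β (Multiset.mem_cons_of_mem hβ)
      rcases hs a (Multiset.mem_cons_self a s) with rfl | rfl
      · rw [Multiset.sum_cons, h4, Multiset.count_cons_self, Multiset.card_cons]
        push_cast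
        ring
      · rw [Multiset.sum_cons, h4, Multiset.count_cons_of_ne (by norm_num), Multiset.card_cons]
        push_cast
        ring
  have h5 := key _ fun β hβ => ev_sq h1 hβ
  rw [h3, ← h2] at h5
  refine ⟨(ev ((2 : ℂ) • e - 1)).count 1, ?_⟩
  linear_combination h5 / 2

/-- the products over the eigenvalues of an involution -/
lemma prod_ev {A : Matrix n n ℂ} (h : A * A = 1) (f : ℂ → ℂ) {ι : Type} (X : Finset ι)
    (c : ι → ℂ) (hc : ∀ T ∈ X, c T = 1 ∨ c T = -1) (m : ι → ℕ)
    (h1 : ∑ T ∈ X, (m T : ℂ) = Fintype.card n) (h2 : ∑ T ∈ X, (m T : ℂ) * c T = A.trace) :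
    ((ev A).map f).prod = ∏ T ∈ X, f (c T) ^ m T := by
  classical
  have key : ∀ s : Multiset ℂ, (∀ β ∈ s, β = 1 ∨ β = -1) →
      (s.card : ℂ) = s.count 1 + s.count (-1) ∧ s.sum = s.count 1 - s.count (-1) ∧
      (s.map f).prod = f 1 ^ s.count 1 * f (-1) ^ s.count (-1) := by
    intro s
    induction s using Multiset.induction_on with
    | empty => intro _; simp
    | cons a s ih =>
      intro hs
      obtain ⟨h4, h5, h6⟩ := ih fun β hβ => hs β (Multiset.mem_cons_of_mem hβ)
      rcases hs a (Multiset.mem_cons_self a s) with rfl | rfl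
      · rw [Multiset.sum_cons, h5, Multiset.count_cons_self, Multiset.card_cons,
          Multiset.map_cons, Multiset.prod_cons, h6,
          Multiset.count_cons_of_ne (show (-1 : ℂ) ≠ 1 by norm_num)]
        refine ⟨?_, ?_, ?_⟩
        · push_cast; rw [h4]; ring
        · push_cast; ring
        · ring
      · rw [Multiset.sum_cons, h5, Multiset.count_cons_self, Multiset.card_cons,
          Multiset.map_cons, Multiset.prod_cons, h6,
          Multiset.count_cons_of_ne (show (1 : ℂ) ≠ -1 by norm_num)]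
        refine ⟨?_, ?_, ?_⟩
        · push_cast; rw [h4]; ring
        · push_cast; ring
        · ring
  obtain ⟨h4, h5, h6⟩ := key _ fun β hβ => ev_sq h hβ
  have ht := trace_ev A 1
  simp only [pow_one, Multiset.map_id'] at ht
  rw [card_ev] at h4
  rw [← ht] at h5
  set X1 := X.filter fun T => c T = 1 with hX1
  set X2 := X.filter fun T => ¬ c T = 1 with hX2
  have e1 : ∀ T ∈ X1, c T = 1 := fun T hT => (Finset.mem_filter.1 hT).2
  have e2 : ∀ T ∈ X2, c T = -1 := fun T hT =>
    (hc T (Finset.mem_filter.1 hT).1).resolve_left (Finset.mem_filter.1 hT).2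
  have e3 : ∑ T ∈ X1, (m T : ℂ) + ∑ T ∈ X2, (m T : ℂ) = Fintype.card n := by
    rw [hX1, hX2, Finset.sum_filter_add_sum_filter_not, h1]
  have e4 : ∑ T ∈ X1, (m T : ℂ) - ∑ T ∈ X2, (m T : ℂ) = A.trace := by
    rw [← h2, ← Finset.sum_filter_add_sum_filter_not X (fun T => c T = 1) fun T => (m T : ℂ) * c T,
      ← hX1, ← hX2, sub_eq_add_neg, ← Finset.sum_neg_distrib]
    congr 1
    · exact Finset.sum_congr rfl fun T hT => by rw [e1 T hT, mul_one]
    · exact Finset.sum_congr rfl fun T hT => by rw [e2 T hT]; ring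
  have e5 : (ev A).count 1 = ∑ T ∈ X1, m T := by
    have : ((ev A).count 1 : ℂ) = ((∑ T ∈ X1, m T : ℕ) : ℂ) := by
      push_cast
      linear_combination -(h4 + h5) / 2 - (e3 + e4) / 2
    exact_mod_cast this
  have e6 : (ev A).count (-1) = ∑ T ∈ X2, m T := by
    have : ((ev A).count (-1) : ℂ) = ((∑ T ∈ X2, m T : ℕ) : ℂ) := by
      push_cast
      linear_combination -(h4 - h5) / 2 - (e3 - e4) / 2
    exact_mod_cast this
  rw [h6, e5, e6, ← Finset.prod_pow_eq_pow_sum, ← Finset.prod_pow_eq_pow_sum,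
    ← Finset.prod_filter_mul_prod_filter_not X (fun T => c T = 1) fun T => f (c T) ^ m T]
  congr 1
  · exact Finset.prod_congr rfl fun T hT => by rw [e1 T hT]
  · exact Finset.prod_congr rfl fun T hT => by rw [e2 T hT]

end

/-- **The multiplicities of the characters.** -/
theorem exists_mult {G : Type} [Group G] [Fintype G] {ι : Type} [DecidableEq ι] (X : Finset ι)
    (c : ι → G → ℂ) (hmul : ∀ T ∈ X, ∀ g h : G, c T (g * h) = c T g * c T h)
    (hone : ∀ T ∈ X, ∀ g, c T g = 1 ∨ c T g = -1)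
    (horth : ∀ g : G, g ≠ 1 → ∑ T ∈ X, c T g = 0) (hcard : X.card = Fintype.card G)
    {b : ℕ} (ρ : G →* Matrix (Fin b) (Fin b) ℂ) :
    ∃ m : ι → ℕ, (∑ T ∈ X, (m T : ℂ) = b) ∧ ∀ g, ∑ T ∈ X, (m T : ℂ) * c T g = (ρ g).trace := by
  classical
  have hN : (Fintype.card G : ℂ) ≠ 0 := Nat.cast_ne_zero.2 Fintype.card_ne_zero
  have hc1 : ∀ T ∈ X, c T 1 = 1 := by
    intro T hT
    have h := hmul T hT 1 1
    rw [mul_one] at h
    rcases hone T hT 1 with h1 | h1
    · exact h1
    · rw [h1] at h; norm_num at h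
  have hsq : ∀ T ∈ X, ∀ g, c T g * c T g = 1 := by
    intro T hT g
    rcases hone T hT g with h1 | h1 <;> rw [h1] <;> norm_num
  set e : ι → Matrix (Fin b) (Fin b) ℂ := fun T =>
    (Fintype.card G : ℂ)⁻¹ • ∑ g : G, c T g • ρ g with he
  have h1 : ∀ T ∈ X, ∀ h : G, ρ h * e T = c T h • e T := by
    intro T hT h
    have h0 : ρ h * (∑ g : G, c T g • ρ g) = c T h • ∑ g : G, c T g • ρ g := by
      rw [Finset.mul_sum, Finset.smul_sum]
      refine Fintype.sum_equiv (Equiv.mulLeft h) (fun g : G => ρ h * (c T g • ρ g))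
        (fun g : G => c T h • (c T g • ρ g)) fun g => ?_
      show ρ h * (c T g • ρ g) = c T h • (c T (h * g) • ρ (h * g))
      rw [mul_smul_comm, map_mul, smul_smul, hmul T hT h g, ← mul_assoc, hsq T hT h, one_mul]
    rw [he]
    simp only
    rw [mul_smul_comm, h0, smul_comm]
  have h2 : ∀ T ∈ X, e T * e T = e T := by
    intro T hT
    conv_lhs =>
      lhs
      rw [he]
    simp only
    rw [smul_mul_assoc, Finset.sum_mul]
    have h3 : ∀ g : G, (c T g • ρ g) * e T = e T := by
      intro g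
      rw [smul_mul_assoc, h1 T hT g, smul_smul, hsq T hT g, one_smul]
    rw [Finset.sum_congr rfl fun g _ => h3 g, Finset.sum_const, Finset.card_univ,
      ← Nat.cast_smul_eq_nsmul ℂ, smul_smul, inv_mul_cancel₀ hN, one_smul]
  have h3 : ∑ T ∈ X, e T = 1 := by
    rw [he]
    simp only
    rw [← Finset.smul_sum, Finset.sum_comm]
    have h4 : ∀ g : G, ∑ T ∈ X, c T g • ρ g = if g = 1 then (Fintype.card G : ℂ) • 1 else 0 := by
      intro g
      rw [← Finset.sum_smul]
      split_ifs with hg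
      · rw [hg, map_one]
        congr 1
        rw [Finset.sum_congr rfl fun T hT => hc1 T hT, Finset.sum_const, nsmul_eq_mul, mul_one,
          hcard]
      · rw [horth g hg, zero_smul]
    rw [Finset.sum_congr rfl fun g _ => h4 g, Finset.sum_ite_eq' Finset.univ (1 : G),
      if_pos (Finset.mem_univ _), smul_smul, inv_mul_cancel₀ hN, one_smul]
  have h4 : ∀ T, ∃ m : ℕ, T ∈ X → (e T).trace = m := by
    intro T
    by_cases hT : T ∈ X
    · obtain ⟨m, hm⟩ := trace_idem (h2 T hT)
      exact ⟨m, fun _ => hm⟩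
    · exact ⟨0, fun h => absurd h hT⟩
  choose m hm using h4
  refine ⟨m, ?_, fun g => ?_⟩
  · rw [Finset.sum_congr rfl fun T hT => (hm T hT).symm, ← Matrix.trace_sum, h3, Matrix.trace_one,
      Fintype.card_fin]
  · have h5 : ρ g = ∑ T ∈ X, c T g • e T := by
      conv_lhs => rw [← mul_one (ρ g), ← h3, Finset.mul_sum]
      exact Finset.sum_congr rfl fun T hT => h1 T hT g
    conv_rhs => rw [h5, Matrix.trace_sum]
    refine Finset.sum_congr rfl fun T hT => ?_
    rw [Matrix.trace_smul, hm T hT, smul_eq_mul, mul_comm]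

end Pool.Agent.V5helper50.BQ
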