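import Pool.Agent.V5helper50.MQ.Eu
import Pool.Agent.V5helper50.BQ.Rep

/-!
# The characters of the Galois group of a real multiquadratic field
-/

set_option autoImplicit false
set_option linter.unusedSectionVars false

namespace Pool.Agent.V5helper50.BQ

open NumberField IsDedekindDomain
open scoped symmDiff
open Pool.Agent.V5helper50.MQ
open Pool.Agent.Y698 (qch)

section
variable (F : IntermediateField ℚ ℂ)

open Classical in
/-- a square root of the product of the elements of `T` -/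
noncomputable def zt (T : Finset ℕ) : F :=
  if h : ∃ z : F, z ^ 2 = ((∏ q ∈ T, q : ℕ) : F) then h.choose else 1

open Classical in
/-- the character -/
noncomputable def chi (T : Finset ℕ) (σ : F ≃ₐ[ℚ] F) : ℂ := if σ (zt F T) = zt F T then 1 else -1

variable {F}

lemma zt_sq {T : Finset ℕ} (h : Sq F (∏ q ∈ T, q)) : zt F T ^ 2 = ((∏ q ∈ T, q : ℕ) : F) := by
  have h1 : ∃ z : F, z ^ 2 = ((∏ q ∈ T, q : ℕ) : F) := by
    obtain ⟨z, hz, hz2⟩ := h
    refine ⟨⟨z, hz⟩, Subtype.ext ?_⟩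
    push_cast
    push_cast at hz2
    exact hz2
  unfold zt
  rw [dif_pos h1]
  exact h1.choose_spec

lemma zt_ne {T : Finset ℕ} (hT : PS T) (h : Sq F (∏ q ∈ T, q)) : zt F T ≠ 0 := by
  intro h0
  have h1 := zt_sq h
  rw [h0, zero_pow two_ne_zero] at h1
  have h2 : (∏ q ∈ T, q : ℕ) ≠ 0 := Finset.prod_ne_zero_iff.2 fun q hq => (hT q hq).1.ne_zero
  have h3 : ((∏ q ∈ T, q : ℕ) : F) = 0 := h1.symm
  exact h2 (by exact_mod_cast h3)

lemma zt_or {T : Finset ℕ} (h : Sq F (∏ q ∈ T, q)) (σ : F ≃ₐ[ℚ] F) :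
    σ (zt F T) = zt F T ∨ σ (zt F T) = -zt F T := by
  apply sq_eq_sq_iff_eq_or_eq_neg.1
  rw [← map_pow, zt_sq h, map_natCast]

lemma neg_ne {T : Finset ℕ} (hT : PS T) (h : Sq F (∏ q ∈ T, q)) : -zt F T ≠ zt F T := by
  intro h1
  apply zt_ne hT h
  have h2 : (2 : F) * zt F T = 0 := by linear_combination -h1
  exact (mul_eq_zero.1 h2).resolve_left two_ne_zero

lemma chi_spec {T : Finset ℕ} (hT : PS T) (h : Sq F (∏ q ∈ T, q)) (σ : F ≃ₐ[ℚ] F) :
    (chi F T σ = 1 ∧ σ (zt F T) = zt F T) ∨ (chi F T σ = -1 ∧ σ (zt F T) = -zt F T) := by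
  unfold chi
  rcases zt_or h σ with h1 | h1
  · exact Or.inl ⟨if_pos h1, h1⟩
  · refine Or.inr ⟨if_neg ?_, h1⟩
    rw [h1]
    exact neg_ne hT h

lemma chi_mul {T : Finset ℕ} (hT : PS T) (h : Sq F (∏ q ∈ T, q)) (σ τ : F ≃ₐ[ℚ] F) :
    chi F T (σ * τ) = chi F T σ * chi F T τ := by
  have e : (σ * τ) (zt F T) = σ (τ (zt F T)) := rfl
  have hne := neg_ne hT h
  rcases chi_spec hT h σ with ⟨a1, a2⟩ | ⟨a1, a2⟩ <;> rcases chi_spec hT h τ with ⟨b1, b2⟩ | ⟨b1, b2⟩ <;>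
    rcases chi_spec hT h (σ * τ) with ⟨c1, c2⟩ | ⟨c1, c2⟩ <;> rw [a1, b1, c1] <;>
    rw [e, b2] at c2 <;> try rw [map_neg] at c2
  all_goals try norm_num
  all_goals exfalso
  all_goals rw [a2] at c2
  · exact hne c2.symm
  · exact hne c2
  · exact hne c2
  · apply hne
    rw [neg_neg] at c2
    exact c2.symm

/-- the square root of the product -/
lemma zt_symm {T U : Finset ℕ} (hT : PS T) (hU : PS U) (h1 : Sq F (∏ q ∈ T, q))
    (h2 : Sq F (∏ q ∈ U, q)) (σ : F ≃ₐ[ℚ] F) : chi F (T ∆ U) σ = chi F T σ * chi F U σ := by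
  classical
  have h3 := sq_symm hT hU h1 h2
  have hI0 : (∏ q ∈ T ∩ U, q : ℕ) ≠ 0 :=
    Finset.prod_ne_zero_iff.2 fun q hq => (hT q (Finset.mem_inter.1 hq).1).1.ne_zero
  have hpr : (∏ q ∈ T ∆ U, q) * (∏ q ∈ T ∩ U, q) ^ 2 = (∏ q ∈ T, q) * ∏ q ∈ U, q := by
    have e1 : ∏ q ∈ T, q = (∏ q ∈ T \ U, q) * ∏ q ∈ T ∩ U, q := by
      rw [mul_comm]; exact (Finset.prod_inter_mul_prod_sdiff T U _).symm
    have e2 : ∏ q ∈ U, q = (∏ q ∈ U \ T, q) * ∏ q ∈ T ∩ U, q := by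
      rw [mul_comm, Finset.inter_comm]; exact (Finset.prod_inter_mul_prod_sdiff U T _).symm
    have e3 : ∏ q ∈ T ∆ U, q = (∏ q ∈ T \ U, q) * ∏ q ∈ U \ T, q := by
      have : T ∆ U = (T \ U) ∪ (U \ T) := rfl
      rw [this, Finset.prod_union disjoint_sdiff_sdiff]
    rw [e1, e2, e3]
    ring
  have hIF : ((∏ q ∈ T ∩ U, q : ℕ) : F) ≠ 0 := by
    intro h
    exact hI0 (by exact_mod_cast h)
  have h4 : (zt F (T ∆ U) * ((∏ q ∈ T ∩ U, q : ℕ) : F)) ^ 2 = (zt F T * zt F U) ^ 2 := by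
    rw [mul_pow, mul_pow, zt_sq h1, zt_sq h2, zt_sq h3]
    exact_mod_cast hpr
  have hne := neg_ne (hT.symm hU) h3
  have hkey : σ (zt F (T ∆ U)) * ((∏ q ∈ T ∩ U, q : ℕ) : F) =
      σ (zt F (T ∆ U) * ((∏ q ∈ T ∩ U, q : ℕ) : F)) := by
    rw [map_mul, map_natCast]
  have hprod : ∀ x : F, σ (zt F T * zt F U) = x → (x = zt F T * zt F U →
      σ (zt F (T ∆ U)) = zt F (T ∆ U)) ∧ (x = -(zt F T * zt F U) →
      σ (zt F (T ∆ U)) = -zt F (T ∆ U)) := by
    rintro x rfl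
    rcases sq_eq_sq_iff_eq_or_eq_neg.1 h4 with h5 | h5
    · refine ⟨fun h6 => ?_, fun h6 => ?_⟩
      · apply mul_right_cancel₀ hIF
        rw [hkey, h5, h6]
      · apply mul_right_cancel₀ hIF
        rw [hkey, h5, h6, neg_mul, h5]
    · refine ⟨fun h6 => ?_, fun h6 => ?_⟩
      · apply mul_right_cancel₀ hIF
        rw [hkey, h5, map_neg, h6]
      · apply mul_right_cancel₀ hIF
        rw [hkey, h5, map_neg, h6, neg_mul, h5]
  obtain ⟨p1, p2⟩ := hprod _ rfl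
  rw [map_mul] at p1 p2
  rcases chi_spec hT h1 σ with ⟨a1, a2⟩ | ⟨a1, a2⟩ <;>
    rcases chi_spec hU h2 σ with ⟨b1, b2⟩ | ⟨b1, b2⟩ <;>
    rcases chi_spec (hT.symm hU) h3 σ with ⟨c1, c2⟩ | ⟨c1, c2⟩ <;> rw [a1, b1, c1]
  all_goals try norm_num
  all_goals exfalso
  all_goals rw [a2, b2] at p1 p2
  · exact hne (c2.symm.trans (p1 rfl))
  · exact hne ((p2 (by ring)).symm.trans c2)
  · exact hne ((p2 (by ring)).symm.trans c2)
  · exact hne (c2.symm.trans (p1 (by ring)))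

end

section
variable {S : Finset ℕ} (hS : ∀ m ∈ S, Cl m) (F : IntermediateField ℚ ℂ) (hF : F = mqn S)
include hS hF

lemma ext_chi {σ : F ≃ₐ[ℚ] F} (h : ∀ T ∈ XF F (S0 S), chi F T σ = 1) : σ = 1 := by
  have h1 : (F.val.comp (σ : F →ₐ[ℚ] F)) = F.val := by
    refine IntermediateField.algHom_ext_of_eq_adjoin ℚ hF ?_
    rintro x ⟨m, hm, hx⟩
    have hT := sq_mem hS F hF hm
    obtain ⟨hT1, hT2⟩ := mem_XF.1 hT
    have hTp := (ps_S0 hS).mono hT1
    have hxF : x ∈ F := by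
      rw [hF]
      exact IntermediateField.subset_adjoin ℚ _ ⟨m, hm, hx⟩
    have h2 : σ (zt F m.primeFactors) = zt F m.primeFactors := by
      rcases chi_spec hTp hT2 σ with h3 | h3
      · exact h3.2
      · have := h _ hT
        rw [h3.1] at this
        norm_num at this
    have h3 : (⟨x, hxF⟩ : F) ^ 2 = zt F m.primeFactors ^ 2 := by
      rw [zt_sq hT2, (hS m hm).prod]
      apply Subtype.ext
      push_cast
      exact hx
    show ((σ ⟨x, hxF⟩ : F) : ℂ) = x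
    rcases sq_eq_sq_iff_eq_or_eq_neg.1 h3 with h4 | h4
    · rw [h4, h2, ← h4]
    · rw [h4, map_neg, h2, ← h4]
  apply AlgEquiv.ext
  intro x
  apply Subtype.ext
  exact DFunLike.congr_fun h1 x

lemma isGal [NumberField F] : IsGalois ℚ F := by
  have hn0 : NeZero (Pool.Agent.Y18.BSD.dd (S0 S)) :=
    ⟨Pool.Agent.Y18.BSD.dd_ne_zero fun q hq => (ps_S0 hS q hq).1⟩
  let L := CyclotomicField (Pool.Agent.Y18.BSD.dd (S0 S)) ℚ
  have hcyc : IsCyclotomicExtension {Pool.Agent.Y18.BSD.dd (S0 S)} ℚ L :=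
    CyclotomicField.isCyclotomicExtension _ ℚ
  let φ : L →ₐ[ℚ] ℂ := IsAlgClosed.lift
  obtain ⟨e⟩ := exists_iso hS F hF (Pool.Agent.Y18.BSD.dd (S0 S)) L φ dvd_rfl
  have : IsAbelianGalois ℚ L := IsCyclotomicExtension.isAbelianGalois {Pool.Agent.Y18.BSD.dd (S0 S)} ℚ L
  have h2 : IsAbelianGalois ℚ (F.comap φ) := IsAbelianGalois.tower_bot ℚ (F.comap φ) L
  exact IsGalois.of_algEquiv e

lemma card_X_eq [NumberField F] : (XF F (S0 S)).card = Nat.card (F ≃ₐ[ℚ] F) := by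
  have := isGal hS F hF
  rw [card_XF hS F hF]
  exact (IsGalois.card_aut_eq_finrank ℚ F).symm

lemma orth {σ : F ≃ₐ[ℚ] F} (hσ : σ ≠ 1) : ∑ T ∈ XF F (S0 S), chi F T σ = 0 := by
  classical
  obtain ⟨U, hU, hU1⟩ : ∃ U ∈ XF F (S0 S), chi F U σ = -1 := by
    by_contra hcon
    push Not at hcon
    apply hσ
    refine ext_chi hS F hF fun T hT => ?_
    obtain ⟨h1, h2⟩ := mem_XF.1 hT
    rcases chi_spec ((ps_S0 hS).mono h1) h2 σ with h | h
    · exact h.1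
    · exact absurd h.1 (hcon T hT)
  obtain ⟨u1, u2⟩ := mem_XF.1 hU
  have h1 : ∑ T ∈ XF F (S0 S), chi F T σ = ∑ T ∈ XF F (S0 S), chi F (T ∆ U) σ := by
    refine Finset.sum_bij' (fun T _ => T ∆ U) (fun T _ => T ∆ U)
      (fun T hT => XF_symm hS F T hT U hU) (fun T hT => XF_symm hS F T hT U hU)
      (fun T _ => symmDiff_symmDiff_cancel_right U T) (fun T _ => symmDiff_symmDiff_cancel_right U T)
      fun T _ => ?_
    rw [symmDiff_symmDiff_cancel_right]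
  have h2 : ∑ T ∈ XF F (S0 S), chi F (T ∆ U) σ = -∑ T ∈ XF F (S0 S), chi F T σ := by
    rw [← Finset.sum_neg_distrib]
    refine Finset.sum_congr rfl fun T hT => ?_
    obtain ⟨t1, t2⟩ := mem_XF.1 hT
    rw [zt_symm ((ps_S0 hS).mono t1) ((ps_S0 hS).mono u1) t2 u2, hU1]
    ring
  have h3 : (2 : ℂ) * ∑ T ∈ XF F (S0 S), chi F T σ = 0 := by
    linear_combination h1 + h2
  exact (mul_eq_zero.1 h3).resolve_left two_ne_zero

lemma inv_sq (σ : F ≃ₐ[ℚ] F) : σ * σ = 1 := by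
  refine ext_chi hS F hF fun T hT => ?_
  obtain ⟨h1, h2⟩ := mem_XF.1 hT
  rw [chi_mul ((ps_S0 hS).mono h1) h2]
  rcases chi_spec ((ps_S0 hS).mono h1) h2 σ with h | h <;> rw [h.1] <;> norm_num

end

/-- the integers in a place -/
lemma int_mem {F : Type} [Field F] [NumberField F] {v : HeightOneSpectrum (𝓞 F)} {p : ℕ}
    (hp : p.Prime) (hv : (p : 𝓞 F) ∈ v.asIdeal) {n : ℤ} (hn : ((n : ℤ) : 𝓞 F) ∈ v.asIdeal) :
    (p : ℤ) ∣ n := by
  by_contra h
  have hcop : IsCoprime (p : ℤ) n := (Prime.coprime_iff_not_dvd (Nat.prime_iff_prime_int.1 hp)).2 h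
  obtain ⟨a, b, hab⟩ := hcop
  apply v.isPrime.ne_top
  rw [Ideal.eq_top_iff_one]
  have h1 := congrArg (fun z : ℤ => (z : 𝓞 F)) hab
  push_cast at h1
  rw [← h1]
  exact Ideal.add_mem _ (Ideal.mul_mem_left _ _ hv) (Ideal.mul_mem_left _ _ hn)

/-- **the value at the Frobenius automorphism** -/
theorem chi_frob {F : IntermediateField ℚ ℂ} [NumberField F] {T : Finset ℕ} (hT : PS T)
    (h : Sq F (∏ q ∈ T, q)) {p : ℕ} (hp : p.Prime) (hp2 : p ≠ 2) (hpT : p ∉ T)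
    {v : HeightOneSpectrum (𝓞 F)} (hv : (p : 𝓞 F) ∈ v.asIdeal) {σ : F ≃ₐ[ℚ] F}
    (hσ : ∀ x : 𝓞 F, σ • x - x ^ p ∈ v.asIdeal) :
    chi F T σ = ∏ q ∈ T, qch q (p : ℤ) := by
  have : Fact p.Prime := ⟨hp⟩
  set d : ℕ := ∏ q ∈ T, q with hd
  have hint : IsIntegral ℤ (zt F T) := by
    refine IsIntegral.of_pow two_pos ?_
    rw [zt_sq h]
    exact isIntegral_natCast _
  have hinj := FaithfulSMul.algebraMap_injective (𝓞 F) F
  obtain ⟨z, hz⟩ : ∃ z : 𝓞 F, algebraMap (𝓞 F) F z = zt F T := ⟨⟨zt F T, hint⟩, rfl⟩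
  have hz2 : z ^ 2 = ((d : ℤ) : 𝓞 F) := by
    apply hinj
    rw [map_pow, hz, zt_sq h, map_intCast]
    exact (Int.cast_natCast (R := F) d).symm
  have hpd : ¬ p ∣ d := by
    intro h1
    obtain ⟨q, hq, h3⟩ := (Prime.dvd_finsetProd_iff hp.prime _).1 h1
    rw [← (Nat.prime_dvd_prime_iff_eq hp (hT q hq).1).1 h3] at hq
    exact hpT hq
  have hzv : z ∉ v.asIdeal := by
    intro h1
    have h2 : z ^ 2 ∈ v.asIdeal := Ideal.pow_mem_of_mem _ h1 2 two_pos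
    rw [hz2] at h2
    have h3 := int_mem hp hv h2
    exact hpd (by exact_mod_cast h3)
  have hodd : p % 2 = 1 := by
    rcases hp.eq_two_or_odd with h1 | h1
    · exact absurd h1 hp2
    · exact h1
  have hpow : z ^ p = z * ((d : ℤ) : 𝓞 F) ^ (p / 2) := by
    rw [← hz2, ← pow_mul, ← pow_succ']
    congr 1
    omega
  have hE := legendreSym.eq_pow p (d : ℤ)
  have hl0 : legendreSym p (d : ℤ) = 1 ∨ legendreSym p (d : ℤ) = -1 := by
    refine legendreSym.eq_one_or_neg_one p ?_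
    intro h1
    rw [ZMod.intCast_zmod_eq_zero_iff_dvd] at h1
    exact hpd (by exact_mod_cast h1)
  have hjac : ∏ q ∈ T, qch q (p : ℤ) = ((legendreSym p (d : ℤ) : ℤ) : ℂ) := by
    rw [← dd_jac hT, dd_eq, jacobiSym.legendreSym.to_jacobiSym]
    have h4 : Odd p := hp.odd_of_ne_two hp2
    have h5 := jacobiSym.quadratic_reciprocity_one_mod_four (a := d) (b := p) hT.mod h4
    rw [h5]
  rw [hjac]
  have hcases : ∀ ε : ℤ, (ε = 1 ∨ ε = -1) → σ (zt F T) = (ε : F) * zt F T →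
      legendreSym p (d : ℤ) = ε := by
    intro ε hε hσz
    have h1 := hσ z
    have h2 : σ • z = (ε : 𝓞 F) * z := by
      apply hinj
      rw [map_mul, map_intCast, hz, ← hσz, ← hz]
      rfl
    rw [h2, hpow] at h1
    have h3 : z * (((ε - (d : ℤ) ^ (p / 2) : ℤ)) : 𝓞 F) ∈ v.asIdeal := by
      have e : z * (((ε - (d : ℤ) ^ (p / 2) : ℤ)) : 𝓞 F) =
          (ε : 𝓞 F) * z - z * ((d : ℤ) : 𝓞 F) ^ (p / 2) := by
        push_cast
        ring
      rw [e]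
      exact h1
    have h4 := (v.isPrime.mem_or_mem h3).resolve_left hzv
    have h5 := int_mem hp hv h4
    have h6 : ((ε - (d : ℤ) ^ (p / 2) : ℤ) : ZMod p) = 0 :=
      (ZMod.intCast_zmod_eq_zero_iff_dvd _ _).2 h5
    push_cast at h6
    have h7 : ((legendreSym p (d : ℤ) : ℤ) : ZMod p) = ((ε : ℤ) : ZMod p) := by
      rw [hE]
      push_cast
      linear_combination -h6
    have hp3 : (2 : ZMod p) ≠ 0 := by
      intro h0
      have : ((2 : ℕ) : ZMod p) = 0 := by exact_mod_cast h0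
      rw [ZMod.natCast_eq_zero_iff] at this
      exact hp2 ((Nat.prime_dvd_prime_iff_eq hp Nat.prime_two).1 this)
    rcases hl0 with h8 | h8 <;> rcases hε with h9 | h9 <;> rw [h8, h9] at h7 ⊢ <;> exfalso <;>
      push_cast at h7 <;> apply hp3
    · linear_combination h7
    · linear_combination -h7
  rcases chi_spec hT h σ with ⟨a, b⟩ | ⟨a, b⟩
  · rw [a, hcases 1 (Or.inl rfl) (by rw [b]; push_cast; ring)]
    norm_num
  · rw [a, hcases (-1) (Or.inr rfl) (by rw [b]; push_cast; ring)]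
    norm_num

end Pool.Agent.V5helper50.BQ
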