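import Mathlib

/-!
# The number of points of the diagonal quadrics over finite fields
-/

set_option autoImplicit false
set_option linter.unusedSectionVars false

open scoped LinearAlgebra.Projectivization

namespace Pool.Agent.V5helper50.BQ

section
variable {K : Type} [Field K] [Fintype K] [DecidableEq K]

/-- the quadratic character with complex values -/
noncomputable def qc (K : Type) [Field K] [Fintype K] [DecidableEq K] : MulChar K ℂ :=
  (quadraticChar K).ringHomComp (Int.castRingHom ℂ)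

lemma qc_apply (x : K) : qc K x = ((quadraticChar K x : ℤ) : ℂ) := rfl

lemma qc_quad : (qc K).IsQuadratic := (quadraticChar_isQuadratic K).comp _

lemma qc_ne (hK : ringChar K ≠ 2) : qc K ≠ 1 := by
  intro h
  obtain ⟨a, ha⟩ := quadraticChar_exists_neg_one hK
  have h1 := DFunLike.congr_fun h a
  have ha0 : IsUnit a := by
    rw [isUnit_iff_ne_zero]
    rintro rfl
    rw [MulChar.map_zero] at ha
    norm_num at ha
  rw [qc_apply, ha, MulChar.one_apply ha0] at h1
  norm_num at h1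

lemma sum_sq (hK : ringChar K ≠ 2) {ψ : AddChar K ℂ} (hψ : ψ.IsPrimitive) {t : K} (ht : t ≠ 0) :
    ∑ x : K, ψ (t * x ^ 2) = qc K t * gaussSum (qc K) ψ := by
  have h1 : ∑ x : K, ψ (t * x ^ 2) = ∑ y : K, ((qc K y) + 1) * ψ (t * y) := by
    rw [← Finset.sum_fiberwise Finset.univ (fun x : K => x ^ 2) fun x => ψ (t * x ^ 2)]
    refine Finset.sum_congr rfl fun y _ => ?_
    have h2 : ∀ x ∈ Finset.univ.filter (fun x : K => x ^ 2 = y), ψ (t * x ^ 2) = ψ (t * y) := by
      intro x hx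
      rw [(Finset.mem_filter.1 hx).2]
    rw [Finset.sum_congr rfl h2, Finset.sum_const, nsmul_eq_mul]
    congr 1
    have h3 := quadraticChar_card_sqrts hK y
    rw [qc_apply]
    have h4 : ((({x : K | x ^ 2 = y}.toFinset.card : ℕ) : ℤ) : ℂ) =
        ((quadraticChar K y + 1 : ℤ) : ℂ) := by rw [h3]
    push_cast at h4
    rw [← h4]
    congr 2
    ext x
    simp
  rw [h1]
  have h5 : ∀ y : K, ((qc K y) + 1) * ψ (t * y) = qc K y * ψ (t * y) + ψ (y * t) := by
    intro y
    rw [mul_comm y t]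
    ring
  rw [Finset.sum_congr rfl fun y _ => h5 y, Finset.sum_add_distrib,
    AddChar.sum_mulShift t hψ, if_neg ht]
  have h6 : ∑ y : K, qc K y * ψ (t * y) = gaussSum (qc K) (ψ.mulShift t) := rfl
  obtain ⟨u, hu⟩ : ∃ u : Kˣ, (u : K) = t := ⟨Units.mk0 t ht, rfl⟩
  have h7 := gaussSum_mulShift (qc K) ψ u
  rw [hu] at h7
  have h8 : qc K t * qc K t = 1 := by
    rw [← map_mul, ← sq, qc_apply, quadraticChar_sq_one' ht]
    norm_num
  rw [h6, Nat.cast_zero, add_zero, ← h7, ← mul_assoc, h8, one_mul]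

omit [Fintype K] [DecidableEq K] in
lemma psi_sum (ψ : AddChar K ℂ) {ι : Type} (s : Finset ι) (f : ι → K) :
    ψ (∑ i ∈ s, f i) = ∏ i ∈ s, ψ (f i) := by
  classical
  induction s using Finset.induction_on with
  | empty => simp
  | insert i s hi ih => rw [Finset.sum_insert hi, Finset.prod_insert hi, AddChar.map_add_eq_mul, ih]

lemma card_mul {m : ℕ} {ψ : AddChar K ℂ} (hψ : ψ.IsPrimitive) (a : Fin m → K) :
    (Fintype.card K : ℂ) * (Nat.card {x : Fin m → K // ∑ i, a i * x i ^ 2 = 0} : ℂ) =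
      ∑ t : K, ∏ i, ∑ x : K, ψ (t * a i * x ^ 2) := by
  have h1 : ∀ t : K, ∏ i, ∑ x : K, ψ (t * a i * x ^ 2) =
      ∑ x : Fin m → K, ψ (t * ∑ i, a i * x i ^ 2) := by
    intro t
    rw [Finset.prod_univ_sum, Fintype.piFinset_univ]
    refine Finset.sum_congr rfl fun x _ => ?_
    rw [← psi_sum, Finset.mul_sum]
    congr 1
    exact Finset.sum_congr rfl fun i _ => by ring
  rw [Finset.sum_congr rfl fun t _ => h1 t, Finset.sum_comm,
    Finset.sum_congr rfl fun x _ => AddChar.sum_mulShift (∑ i, a i * x i ^ 2) hψ]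
  rw [Nat.card_eq_fintype_card, Fintype.card_subtype]
  push_cast
  rw [Finset.sum_ite, Finset.sum_const_zero, add_zero, Finset.sum_const, nsmul_eq_mul, mul_comm]

lemma card_aff (hK : ringChar K ≠ 2) {m : ℕ} {ψ : AddChar K ℂ} (hψ : ψ.IsPrimitive)
    {a : Fin m → K} (ha : ∀ i, a i ≠ 0) :
    (Fintype.card K : ℂ) * (Nat.card {x : Fin m → K // ∑ i, a i * x i ^ 2 = 0} : ℂ) =
      (Fintype.card K : ℂ) ^ m + gaussSum (qc K) ψ ^ m * qc K (∏ i, a i) *
        ∑ t ∈ (Finset.univ : Finset K).erase 0, qc K t ^ m := by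
  rw [card_mul hψ, ← Finset.add_sum_erase Finset.univ _ (Finset.mem_univ (0 : K))]
  congr 1
  · simp
  · rw [Finset.mul_sum]
    refine Finset.sum_congr rfl fun t ht => ?_
    have ht0 := Finset.ne_of_mem_erase ht
    rw [Finset.prod_congr rfl fun i _ => sum_sq hK hψ (mul_ne_zero ht0 (ha i)),
      Finset.prod_mul_distrib, Finset.prod_const, Finset.card_univ, Fintype.card_fin]
    simp only [map_mul]
    rw [Finset.prod_mul_distrib, Finset.prod_const, Finset.card_univ, Fintype.card_fin, map_prod]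
    ring

/-- **the number of the zeros of a diagonal quadratic form** -/
theorem card_quad (hK : ringChar K ≠ 2) {m : ℕ} {a : Fin m → K} (ha : ∀ i, a i ≠ 0) :
    (Odd m → (Nat.card {x : Fin m → K // ∑ i, a i * x i ^ 2 = 0} : ℂ) =
      (Fintype.card K : ℂ) ^ (m - 1)) ∧
    ∀ c, m = 2 * (c + 1) → (Nat.card {x : Fin m → K // ∑ i, a i * x i ^ 2 = 0} : ℂ) =
      (Fintype.card K : ℂ) ^ (2 * c + 1) + (Fintype.card K - 1) * (Fintype.card K : ℂ) ^ c *
        qc K ((-1) ^ (c + 1) * ∏ i, a i) := by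
  have hq : (Fintype.card K : ℂ) ≠ 0 := Nat.cast_ne_zero.2 Fintype.card_ne_zero
  obtain ⟨ψ, hψ1⟩ : ∃ ψ : AddChar K ℂ, ψ ≠ 1 := by
    have : Nontrivial K := inferInstance
    obtain ⟨ψ, hψ⟩ := AddChar.exists_apply_ne_zero (α := K) |>.2 (one_ne_zero (α := K))
    refine ⟨ψ, ?_⟩
    rintro rfl
    exact hψ rfl
  have hψ : ψ.IsPrimitive := AddChar.IsPrimitive.of_ne_one hψ1
  have h0 := card_aff hK hψ ha
  have hsum : ∑ t ∈ (Finset.univ : Finset K).erase 0, qc K t = 0 := by
    have h1 := Finset.add_sum_erase Finset.univ (fun t => qc K t) (Finset.mem_univ (0 : K))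
    simp only [MulChar.sum_eq_zero_of_ne_one (qc_ne hK), MulChar.map_zero, zero_add] at h1
    exact h1
  have hsq : ∀ t ∈ (Finset.univ : Finset K).erase 0, qc K t ^ 2 = 1 := by
    intro t ht
    have ht0 := Finset.ne_of_mem_erase ht
    rw [← map_pow, qc_apply, quadraticChar_sq_one' ht0]
    norm_num
  constructor
  · rintro ⟨c, hc⟩
    have h1 : ∑ t ∈ (Finset.univ : Finset K).erase 0, qc K t ^ m = 0 := by
      rw [← hsum]
      refine Finset.sum_congr rfl fun t ht => ?_
      rw [hc, pow_succ, pow_mul, hsq t ht, one_pow, one_mul]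
    rw [h1, mul_zero, add_zero] at h0
    apply mul_left_cancel₀ hq
    rw [h0, ← pow_succ']
    congr 1
    omega
  · intro c hc
    subst hc
    have hc : 2 * (c + 1) = 2 * (c + 1) := rfl
    have h1 : ∑ t ∈ (Finset.univ : Finset K).erase 0, qc K t ^ (2 * (c + 1)) = Fintype.card K - 1 := by
      have h2 : ∀ t ∈ (Finset.univ : Finset K).erase 0, qc K t ^ (2 * (c + 1)) = 1 := by
        intro t ht
        rw [pow_mul, hsq t ht, one_pow]
      rw [Finset.sum_congr rfl h2, Finset.sum_const, Finset.card_erase_of_mem (Finset.mem_univ _),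
        Finset.card_univ, nsmul_eq_mul, mul_one, Nat.cast_sub Fintype.card_pos, Nat.cast_one]
    have h3 : gaussSum (qc K) ψ ^ (2 * (c + 1)) = (qc K (-1) * Fintype.card K) ^ (c + 1) := by
      rw [pow_mul, gaussSum_sq (qc_ne hK) qc_quad hψ]
    rw [h1, h3] at h0
    apply mul_left_cancel₀ hq
    rw [h0, map_mul, map_pow]
    ring

end

end Pool.Agent.V5helper50.BQ
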